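import Pool.Agent.H106R3.Zomb.Main

/-!
# MP_34e428_co: an upper bound `O(n^{3/2})` for the zombie number of the toroidal grid

Definitions in `Pool.Agent.H106R3.Zomb.Gen`. Proof: union bound over the `5^m` trajectories of the
survivor. For a fixed trajectory of `m` rounds, the number of start vertices from which a zombie
catches the survivor has expectation at least `m^{3/2} / 5`: adding one round at the beginning of a
trajectory increases this expectation by at least the sums of the capture probability over the
row and the column of the survivor, these sums dominate twice the expected number of rounds in which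
a zombie is aligned with the survivor, and the latter is bounded below by the potential
`E |z + W_r| - z` (lazy walk `W`), because the survivor can leave only one of the two lines at a time.
-/

set_option autoImplicit false

namespace Pool.Agent.Results.MP_34e428_co.ThreeHalves

open Pool.Agent.H106R3.Zomb

theorem result : ∀ (n : ℕ) [NeZero n], 3 ≤ n →
    (∀ k : ℕ, 128 * (n : ℝ) * Real.sqrt n ≤ k → ∃ m : ℕ, m ≤ n ∧
      ∀ σ : List (Fin k → ZMod n × ZMod n) → ZMod n × ZMod n, Legal (tor n) σ →
        survProb (tor n) σ m ≤ 1 / 2) ∧
    (zombieNumber (tor n) : ℝ) ≤ 129 * (n : ℝ) * Real.sqrt n :=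
  fun _ _ hn => ⟨fun k hk => surv_half hn k hk, zombieNumber_le hn⟩

end Pool.Agent.Results.MP_34e428_co.ThreeHalves
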